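import Pool.Agent.Lib.MP_479d4c_gt.H44.Cls

/-!
# EVD : derivatives of `ev2` (MP_479d4c_gt, short proof)
-/

set_option autoImplicit false

open ComplexConjugate Topology Metric CMC46

noncomputable section

namespace CMC82.H44

/-- the term norm bound -/
lemma norm_term_le {f : Arr} {r : ℝ} {w v : ℂ} (hw : ‖w‖ ≤ r) (hv : ‖v‖ ≤ r) (i : ℕ × ℕ) :
    ‖(f i : ℂ) * w ^ i.1 * v ^ i.2‖ ≤ r ^ (i.1 + i.2) * |f i| := by
  have hr : 0 ≤ r := (norm_nonneg w).trans hw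
  rw [norm_mul, norm_mul, norm_pow, norm_pow, Complex.norm_real, Real.norm_eq_abs, pow_add]
  have h1 : ‖w‖ ^ i.1 ≤ r ^ i.1 := pow_le_pow_left₀ (norm_nonneg _) hw _
  have h2 : ‖v‖ ^ i.2 ≤ r ^ i.2 := pow_le_pow_left₀ (norm_nonneg _) hv _
  calc |f i| * ‖w‖ ^ i.1 * ‖v‖ ^ i.2 ≤ |f i| * r ^ i.1 * r ^ i.2 := by gcongr
    _ = _ := by ring

/-- the series defining `ev2` converges -/
lemma summable_ev2 {f : Arr} (hf : Cv f) {w v : ℂ} (hw : ‖w‖ < 6 / 5) (hv : ‖v‖ < 6 / 5) :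
    Summable fun i : ℕ × ℕ => (f i : ℂ) * w ^ i.1 * v ^ i.2 := by
  have h := hf (max ‖w‖ ‖v‖) (le_max_of_le_left (norm_nonneg w)) (max_lt hw hv)
  exact Summable.of_norm_bounded h (fun i => norm_term_le (le_max_left _ _) (le_max_right _ _) i)

lemma hasSum_ev2 {f : Arr} (hf : Cv f) {w v : ℂ} (hw : ‖w‖ < 6 / 5) (hv : ‖v‖ < 6 / 5) :
    HasSum (fun i : ℕ × ℕ => (f i : ℂ) * w ^ i.1 * v ^ i.2) (ev2 f w v) :=
  (summable_ev2 hf hw hv).hasSum

/-- the terms of the `w` derivative -/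
def tw (f : Arr) (w v : ℂ) (i : ℕ × ℕ) : ℂ := (f i : ℂ) * ((i.1 : ℂ) * w ^ (i.1 - 1)) * v ^ i.2
/-- the terms of the `v` derivative -/
def tv (f : Arr) (w v : ℂ) (i : ℕ × ℕ) : ℂ := (f i : ℂ) * w ^ i.1 * ((i.2 : ℂ) * v ^ (i.2 - 1))

lemma hasSum_tw {f : Arr} (hf : Cv f) {w v : ℂ} (hw : ‖w‖ < 6 / 5) (hv : ‖v‖ < 6 / 5) :
    HasSum (tw f w v) (ev2 (dw f) w v) := by
  have hinj : Function.Injective (fun i : ℕ × ℕ => ((i.1 + 1, i.2) : ℕ × ℕ)) := by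
    intro a b hab
    simp only [Prod.mk.injEq, Nat.add_right_cancel_iff] at hab
    exact Prod.ext hab.1 hab.2
  rw [← hinj.hasSum_iff]
  · have h := hasSum_ev2 (cv_dw hf) hw hv
    refine h.congr_fun (fun i => ?_) |> fun x => x
    simp only [Function.comp, tw, dw, Nat.add_sub_cancel]
    push_cast
    ring
  · rintro ⟨m, n⟩ h
    have hm : m = 0 := by
      by_contra hne
      exact h ⟨(m - 1, n), by simp only [Prod.mk.injEq, and_true]; omega⟩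
    subst hm
    simp [tw]

lemma hasSum_tv {f : Arr} (hf : Cv f) {w v : ℂ} (hw : ‖w‖ < 6 / 5) (hv : ‖v‖ < 6 / 5) :
    HasSum (tv f w v) (ev2 (dv f) w v) := by
  have hinj : Function.Injective (fun i : ℕ × ℕ => ((i.1, i.2 + 1) : ℕ × ℕ)) := by
    intro a b hab
    simp only [Prod.mk.injEq, Nat.add_right_cancel_iff] at hab
    exact Prod.ext hab.1 hab.2
  rw [← hinj.hasSum_iff]
  · have h := hasSum_ev2 (cv_dv hf) hw hv
    refine h.congr_fun (fun i => ?_) |> fun x => x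
    simp only [Function.comp, tv, dv, Nat.add_sub_cancel]
    push_cast
    ring
  · rintro ⟨m, n⟩ h
    have hm : n = 0 := by
      by_contra hne
      exact h ⟨(m, n - 1), by simp only [Prod.mk.injEq, true_and]; omega⟩
    subst hm
    simp [tv]

lemma norm_nat_mul_pow_le {r r' : ℝ} {C : ℝ} (hb : ∀ n : ℕ, ((n : ℝ) + 1) * r ^ n ≤ C * r' ^ n)
    (hr : 0 ≤ r) (hr' : 0 < r') (m n : ℕ) (w v : ℂ) (hw : ‖w‖ ≤ r) (hv : ‖v‖ ≤ r) :
    ‖((m : ℂ) * w ^ (m - 1)) * v ^ n‖ ≤ C / r' * r' ^ (m + n) := by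
  rcases Nat.eq_zero_or_pos m with h | h
  · subst h
    have hC : 0 ≤ C := by
      have := hb 0
      simp only [CharP.cast_eq_zero, zero_add, pow_zero, mul_one] at this
      linarith
    simp only [CharP.cast_eq_zero, zero_mul, norm_zero]
    positivity
  · obtain ⟨m, rfl⟩ := Nat.exists_eq_add_of_lt h
    simp only [zero_add, Nat.add_sub_cancel]
    rw [norm_mul, norm_mul, norm_pow, norm_pow, Complex.norm_natCast]
    have h1 : ‖w‖ ^ m ≤ r ^ m := pow_le_pow_left₀ (norm_nonneg _) hw _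
    have h2 : ‖v‖ ^ n ≤ r ^ n := pow_le_pow_left₀ (norm_nonneg _) hv _
    have h3 : (((m + 1 : ℕ) : ℝ)) ≤ ((m + n : ℕ) : ℝ) + 1 := by
      push_cast
      have : (0 : ℝ) ≤ n := by positivity
      linarith
    calc ((m + 1 : ℕ) : ℝ) * ‖w‖ ^ m * ‖v‖ ^ n ≤ (((m + n : ℕ) : ℝ) + 1) * r ^ m * r ^ n := by
          gcongr
      _ = (((m + n : ℕ) : ℝ) + 1) * r ^ (m + n) := by rw [pow_add]; ring
      _ ≤ C * r' ^ (m + n) := hb (m + n)
      _ = C / r' * r' ^ (m + 1 + n) := by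
          have : m + 1 + n = (m + n) + 1 := by ring
          rw [this, pow_succ]
          field_simp

/-- the derivative of one term -/
def dterm (f : Arr) (i : ℕ × ℕ) (p : ℂ × ℂ) : ℂ × ℂ →L[ℂ] ℂ :=
  tw f p.1 p.2 i • ContinuousLinearMap.fst ℂ ℂ ℂ + tv f p.1 p.2 i • ContinuousLinearMap.snd ℂ ℂ ℂ

lemma hasFDerivAt_term (f : Arr) (i : ℕ × ℕ) (p : ℂ × ℂ) :
    HasFDerivAt (fun q : ℂ × ℂ => (f i : ℂ) * q.1 ^ i.1 * q.2 ^ i.2) (dterm f i p) p := by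
  have h1 : HasFDerivAt (fun q : ℂ × ℂ => q.1 ^ i.1)
      (((i.1 : ℂ) * p.1 ^ (i.1 - 1)) • ContinuousLinearMap.fst ℂ ℂ ℂ) p :=
    (hasDerivAt_pow i.1 p.1).comp_hasFDerivAt p hasFDerivAt_fst
  have h2 : HasFDerivAt (fun q : ℂ × ℂ => q.2 ^ i.2)
      (((i.2 : ℂ) * p.2 ^ (i.2 - 1)) • ContinuousLinearMap.snd ℂ ℂ ℂ) p :=
    (hasDerivAt_pow i.2 p.2).comp_hasFDerivAt p hasFDerivAt_snd
  have h3 := (h1.const_mul (f i : ℂ)).mul h2
  refine h3.congr_fderiv ?_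
  refine ContinuousLinearMap.ext (fun x => ?_)
  simp only [dterm, tw, tv, ContinuousLinearMap.add_apply, ContinuousLinearMap.smul_apply,
    ContinuousLinearMap.coe_fst', ContinuousLinearMap.coe_snd', smul_eq_mul]
  ring

/-- joint differentiability -/
lemma hasFDerivAt_ev2 {f : Arr} (hf : Cv f) {w v : ℂ} (hw : ‖w‖ < 6 / 5) (hv : ‖v‖ < 6 / 5) :
    HasFDerivAt (fun q : ℂ × ℂ => ev2 f q.1 q.2)
      (ev2 (dw f) w v • ContinuousLinearMap.fst ℂ ℂ ℂ +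
        ev2 (dv f) w v • ContinuousLinearMap.snd ℂ ℂ ℂ) (w, v) := by
  have hm : max ‖w‖ ‖v‖ < 6 / 5 := max_lt hw hv
  have hm0 : 0 ≤ max ‖w‖ ‖v‖ := le_max_of_le_left (norm_nonneg w)
  obtain ⟨r, hr1, hr2⟩ := exists_between hm
  obtain ⟨r', hr3, hr4⟩ := exists_between hr2
  have hr : 0 < r := lt_of_le_of_lt hm0 hr1
  have hr' : 0 < r' := hr.trans hr3
  obtain ⟨C, hC, hb⟩ := lin_mul_pow_le hr.le hr3
  have hu : Summable (fun i : ℕ × ℕ => 2 * (C / r') * (r' ^ (i.1 + i.2) * |f i|)) :=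
    (hf r' hr'.le hr4).mul_left _
  have hmem : ∀ q : ℂ × ℂ, q ∈ ball (0 : ℂ × ℂ) r → ‖q.1‖ ≤ r ∧ ‖q.2‖ ≤ r := by
    intro q hq
    rw [mem_ball_zero_iff] at hq
    exact ⟨(norm_fst_le q).trans hq.le, (norm_snd_le q).trans hq.le⟩
  have hx : (w, v) ∈ ball (0 : ℂ × ℂ) r := by
    rw [mem_ball_zero_iff, Prod.norm_def]
    exact hr1
  have key := hasFDerivAt_tsum_of_isPreconnected (𝕜 := ℂ) hu isOpen_ball
    (convex_ball (0 : ℂ × ℂ) r).isPreconnected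
    (f := fun i (q : ℂ × ℂ) => (f i : ℂ) * q.1 ^ i.1 * q.2 ^ i.2) (f' := fun i q => dterm f i q)
    (fun i q _ => hasFDerivAt_term f i q) (fun i q hq => ?_) (mem_ball_self hr)
    (summable_ev2 hf (by simp) (by simp)) hx
  · refine key.congr_fderiv ?_
    have h1 := (hasSum_tw hf hw hv).smul_const (ContinuousLinearMap.fst ℂ ℂ ℂ)
    have h2 := (hasSum_tv hf hw hv).smul_const (ContinuousLinearMap.snd ℂ ℂ ℂ)
    exact (h1.add h2).tsum_eq
  · obtain ⟨hq1, hq2⟩ := hmem q hq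
    have a1 : ‖tw f q.1 q.2 i‖ ≤ C / r' * (r' ^ (i.1 + i.2) * |f i|) := by
      have := norm_nat_mul_pow_le hb hr.le hr' i.1 i.2 q.1 q.2 hq1 hq2
      unfold tw
      rw [mul_assoc, norm_mul, Complex.norm_real, Real.norm_eq_abs]
      calc |f i| * ‖((i.1 : ℂ) * q.1 ^ (i.1 - 1)) * q.2 ^ i.2‖
          ≤ |f i| * (C / r' * r' ^ (i.1 + i.2)) := mul_le_mul_of_nonneg_left this (abs_nonneg _)
        _ = _ := by ring
    have a2 : ‖tv f q.1 q.2 i‖ ≤ C / r' * (r' ^ (i.1 + i.2) * |f i|) := by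
      have := norm_nat_mul_pow_le hb hr.le hr' i.2 i.1 q.2 q.1 hq2 hq1
      unfold tv
      have e : (f i : ℂ) * q.1 ^ i.1 * ((i.2 : ℂ) * q.2 ^ (i.2 - 1)) =
          (f i : ℂ) * (((i.2 : ℂ) * q.2 ^ (i.2 - 1)) * q.1 ^ i.1) := by ring
      rw [e, norm_mul, Complex.norm_real, Real.norm_eq_abs]
      calc |f i| * ‖((i.2 : ℂ) * q.2 ^ (i.2 - 1)) * q.1 ^ i.1‖
          ≤ |f i| * (C / r' * r' ^ (i.2 + i.1)) := mul_le_mul_of_nonneg_left this (abs_nonneg _)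
        _ = _ := by rw [Nat.add_comm i.2 i.1]; ring
    have b1 : ‖(ContinuousLinearMap.fst ℂ ℂ ℂ)‖ ≤ 1 := ContinuousLinearMap.norm_fst_le ℂ ℂ ℂ
    have b2 : ‖(ContinuousLinearMap.snd ℂ ℂ ℂ)‖ ≤ 1 := ContinuousLinearMap.norm_snd_le ℂ ℂ ℂ
    unfold dterm
    refine (norm_add_le _ _).trans ?_
    rw [norm_smul, norm_smul]
    have n1 := norm_nonneg (tw f q.1 q.2 i)
    have n2 := norm_nonneg (tv f q.1 q.2 i)
    calc ‖tw f q.1 q.2 i‖ * ‖(ContinuousLinearMap.fst ℂ ℂ ℂ)‖ +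
          ‖tv f q.1 q.2 i‖ * ‖(ContinuousLinearMap.snd ℂ ℂ ℂ)‖
        ≤ ‖tw f q.1 q.2 i‖ * 1 + ‖tv f q.1 q.2 i‖ * 1 :=
          add_le_add (mul_le_mul_of_nonneg_left b1 n1) (mul_le_mul_of_nonneg_left b2 n2)
      _ ≤ _ := by linarith

lemma hasDerivAt_ev2_fst {f : Arr} (hf : Cv f) {w v : ℂ} (hw : ‖w‖ < 6 / 5) (hv : ‖v‖ < 6 / 5) :
    HasDerivAt (fun x => ev2 f x v) (ev2 (dw f) w v) w := by
  have h := (hasFDerivAt_ev2 hf hw hv).comp_hasDerivAt w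
    ((hasDerivAt_id w).prodMk (hasDerivAt_const w v))
  refine HasDerivAt.congr_deriv (f := fun x => ev2 f x v) h ?_
  simp

lemma hasDerivAt_ev2_snd {f : Arr} (hf : Cv f) {w v : ℂ} (hw : ‖w‖ < 6 / 5) (hv : ‖v‖ < 6 / 5) :
    HasDerivAt (fun x => ev2 f w x) (ev2 (dv f) w v) v := by
  have h := (hasFDerivAt_ev2 hf hw hv).comp_hasDerivAt v
    ((hasDerivAt_const v w).prodMk (hasDerivAt_id v))
  refine HasDerivAt.congr_deriv (f := fun x => ev2 f w x) h ?_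
  simp

/-- the chain rule for a pair of functions with Wirtinger derivatives -/
lemma hasW_ev2_comp {f : Arr} (hf : Cv f) {F G : ℂ → ℂ} {a b a' b' z : ℂ} (hF : HasW F a b z)
    (hG : HasW G a' b' z) (h1 : ‖F z‖ < 6 / 5) (h2 : ‖G z‖ < 6 / 5) :
    HasW (fun x => ev2 f (F x) (G x))
      (ev2 (dw f) (F z) (G z) * a + ev2 (dv f) (F z) (G z) * a')
      (ev2 (dw f) (F z) (G z) * b + ev2 (dv f) (F z) (G z) * b') z := by
  have h := ((hasFDerivAt_ev2 hf h1 h2).restrictScalars ℝ).comp z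
    (HasFDerivAt.prodMk hF hG)
  unfold HasW
  refine h.congr_fderiv ?_
  refine ContinuousLinearMap.ext (fun x => ?_)
  simp only [ContinuousLinearMap.comp_apply, ContinuousLinearMap.coe_restrictScalars',
    ContinuousLinearMap.add_apply, ContinuousLinearMap.smul_apply, ContinuousLinearMap.coe_fst',
    ContinuousLinearMap.coe_snd', ContinuousLinearMap.prod_apply, wirt_apply, smul_eq_mul]
  ring

theorem evd_st0 : EvdS := by
  intro f hf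
  refine ⟨fun w v hw hv => ⟨hasDerivAt_ev2_fst hf hw hv, hasDerivAt_ev2_snd hf hw hv⟩,
    fun w hw => ?_⟩
  have hw' : ‖conj w‖ < 6 / 5 := by rwa [Complex.norm_conj]
  constructor
  · have h := hasW_ev2_comp hf (hasW_id w) (hasW_conj w) hw hw'
    simpa using h
  · have h := hasW_ev2_comp hf (hasW_conj w) (hasW_id w) hw' hw
    simpa using h

theorem evd_st (_ : ClsS) : EvdS := evd_st0

end CMC82.H44
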