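import Pool.Agent.Lib.MP_479d4c_gt.S.Iface

/-!
# CLS : the classes of arrays (MP_479d4c_gt, short proof)
-/

set_option autoImplicit false

open ComplexConjugate Topology Metric

noncomputable section

namespace CMC82.H44

/-- `(n + 1) r ^ n ≤ C r' ^ n` -/
lemma lin_mul_pow_le {r r' : ℝ} (h0 : 0 ≤ r) (h1 : r < r') :
    ∃ C : ℝ, 0 ≤ C ∧ ∀ n : ℕ, ((n : ℝ) + 1) * r ^ n ≤ C * r' ^ n := by
  have hr' : 0 < r' := lt_of_le_of_lt h0 h1
  set δ := (r' - r) / r' with hδ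
  have hδ0 : 0 < δ := div_pos (by linarith) hr'
  have hδ1 : δ ≤ 1 := by
    rw [hδ, div_le_one hr']; linarith
  refine ⟨δ⁻¹, (inv_pos.mpr hδ0).le, fun n => ?_⟩
  have h2 : (1 + δ) * r ≤ r' := by
    have h3 : δ * r' = r' - r := by rw [hδ]; field_simp
    nlinarith
  have h3 : ((1 + δ) * r) ^ n ≤ r' ^ n := pow_le_pow_left₀ (by positivity) h2 n
  have h4 : 1 + (n : ℝ) * δ ≤ (1 + δ) ^ n :=
    one_add_mul_le_pow (by linarith) n
  have h5 : ((n : ℝ) + 1) * δ ≤ (1 + δ) ^ n := by nlinarith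
  rw [mul_pow] at h3
  have h6 : (((n : ℝ) + 1) * δ) * r ^ n ≤ r' ^ n :=
    (mul_le_mul_of_nonneg_right h5 (by positivity)).trans h3
  rw [← sub_nonneg]
  have e : δ⁻¹ * r' ^ n - ((n : ℝ) + 1) * r ^ n =
      δ⁻¹ * (r' ^ n - (((n : ℝ) + 1) * δ) * r ^ n) := by
    field_simp
  rw [e]
  exact mul_nonneg (inv_pos.mpr hδ0).le (sub_nonneg.mpr h6)

lemma cv_of_fn {f : Arr} (hf : Fn f) : Cv f := by
  intro r h0 h1
  refine Summable.of_nonneg_of_le (fun i => by positivity) (fun i => ?_) hf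
  refine mul_le_mul_of_nonneg_right ?_ (abs_nonneg _)
  unfold wt
  have h2 : r ^ (i.1 + i.2) ≤ (6 / 5 : ℝ) ^ (i.1 + i.2) := pow_le_pow_left₀ h0 h1.le _
  have h3 : (0 : ℝ) ≤ (i.1 : ℝ) + i.2 := by positivity
  have h4 : (0 : ℝ) ≤ (6 / 5 : ℝ) ^ (i.1 + i.2) := by positivity
  nlinarith

lemma cv_sw {f : Arr} (hf : Cv f) : Cv (sw f) := by
  intro r h0 h1
  have h := (Equiv.prodComm ℕ ℕ).summable_iff.mpr (hf r h0 h1)
  refine h.congr (fun i => ?_)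
  change r ^ (i.2 + i.1) * |f (i.2, i.1)| = r ^ (i.1 + i.2) * |f (i.2, i.1)|
  rw [Nat.add_comm i.2 i.1]

lemma cv_dw {f : Arr} (hf : Cv f) : Cv (dw f) := by
  intro r h0 h1
  obtain ⟨r', h2, h3⟩ := exists_between h1
  have hr' : 0 < r' := lt_of_le_of_lt h0 h2
  obtain ⟨C, hC, hb⟩ := lin_mul_pow_le h0 h2
  have hinj : Function.Injective (fun i : ℕ × ℕ => ((i.1 + 1, i.2) : ℕ × ℕ)) := by
    intro a b hab
    simp only [Prod.mk.injEq, Nat.add_right_cancel_iff] at hab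
    exact Prod.ext hab.1 hab.2
  have hs := ((hf r' hr'.le h3).comp_injective hinj).mul_left (C / r')
  refine Summable.of_nonneg_of_le (fun i => by positivity) (fun i => ?_) hs
  simp only [dw, Function.comp]
  rw [abs_mul, abs_of_nonneg (by positivity : (0 : ℝ) ≤ (i.1 : ℝ) + 1)]
  have h4 := hb (i.1 + i.2)
  have h5 : ((i.1 : ℝ) + 1) * r ^ (i.1 + i.2) ≤ C * r' ^ (i.1 + i.2) := by
    refine le_trans (mul_le_mul_of_nonneg_right ?_ (by positivity)) h4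
    push_cast
    have : (0 : ℝ) ≤ i.2 := by positivity
    linarith
  have h6 : i.1 + 1 + i.2 = (i.1 + i.2) + 1 := by ring
  rw [h6, pow_succ]
  have h7 : C / r' * (r' ^ (i.1 + i.2) * r' * |f (i.1 + 1, i.2)|) =
      C * r' ^ (i.1 + i.2) * |f (i.1 + 1, i.2)| := by
    field_simp
  rw [h7]
  calc r ^ (i.1 + i.2) * (((i.1 : ℝ) + 1) * |f (i.1 + 1, i.2)|)
      = (((i.1 : ℝ) + 1) * r ^ (i.1 + i.2)) * |f (i.1 + 1, i.2)| := by ring
    _ ≤ _ := mul_le_mul_of_nonneg_right h5 (abs_nonneg _)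

lemma dv_eq (f : Arr) : dv f = sw (dw (sw f)) := rfl

lemma cv_dv {f : Arr} (hf : Cv f) : Cv (dv f) := by
  rw [dv_eq]
  exact cv_sw (cv_dw (cv_sw hf))

lemma ev2_sw (f : Arr) (w v : ℂ) : ev2 (sw f) w v = ev2 f v w := by
  unfold ev2 sw
  rw [← (Equiv.prodComm ℕ ℕ).tsum_eq (fun i : ℕ × ℕ => (f i : ℂ) * v ^ i.1 * w ^ i.2)]
  refine tsum_congr (fun i => ?_)
  simp only [Equiv.prodComm_apply, Prod.fst_swap, Prod.snd_swap]
  have : (i.2, i.1) = i.swap := rfl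
  rw [this]
  ring

lemma conj_ev2 (f : Arr) (w v : ℂ) : conj (ev2 f w v) = ev2 f (conj w) (conj v) := by
  unfold ev2
  rw [Complex.conj_tsum]
  refine tsum_congr (fun i => ?_)
  simp

lemma conj_ev1 (k : ℕ → ℝ) (v : ℂ) : conj (ev1 k v) = ev1 k (conj v) := by
  unfold ev1
  rw [Complex.conj_tsum]
  refine tsum_congr (fun i => ?_)
  simp

lemma ev2_zero (f : Arr) : ev2 f 0 0 = f (0, 0) := by
  unfold ev2
  rw [tsum_eq_single (0, 0)]
  · simp
  · rintro ⟨m, n⟩ h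
    rcases Nat.eq_zero_or_pos m with hm | hm
    · rcases Nat.eq_zero_or_pos n with hn | hn
      · subst hm; subst hn; exact absurd rfl h
      · simp [hn.ne']
    · simp [hm.ne']

lemma dw_dv (f : Arr) : dw (dv f) = dv (dw f) := by
  funext i
  simp only [dw, dv]
  ring

theorem cls_st : ClsS :=
  ⟨fun _ hf => cv_of_fn hf, fun _ hf => ⟨cv_dw hf, cv_dv hf, cv_sw hf⟩, dw_dv, ev2_sw, conj_ev2,
    conj_ev1, ev2_zero⟩

end CMC82.H44
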